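import Mathlib

/-!
# Transport of a gas with pair interactions (nu34/85c, section 1)

Change of variables `t_i = ψ(s_i)`; the Jacobian is the diagonal of the two-body term.
-/

set_option autoImplicit false

open MeasureTheory Set Filter Topology ENNReal

namespace NUTr

variable {ι : Type*} [Fintype ι] [DecidableEq ι]

/-- the diagonal linear map -/
noncomputable def dg (v : ι → ℝ) : (ι → ℝ) →L[ℝ] (ι → ℝ) :=
  ContinuousLinearMap.pi fun i => v i • ContinuousLinearMap.proj i

lemma dg_det (v : ι → ℝ) : (dg v).det = ∏ i, v i := by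
  have h : ((dg v : (ι → ℝ) →L[ℝ] (ι → ℝ)) : (ι → ℝ) →ₗ[ℝ] (ι → ℝ)) = Matrix.toLin' (Matrix.diagonal v) := by
    ext x i
    simp [dg, Matrix.toLin'_apply, Matrix.mulVec_diagonal]
  rw [ContinuousLinearMap.det, h, LinearMap.det_toLin', Matrix.det_diagonal]

/-- an increasing diffeomorphism of the line with its derivative -/
structure Dif (ψ ψ' : ℝ → ℝ) : Prop where
  der : ∀ x, HasDerivAt ψ (ψ' x) x
  pos : ∀ x, 0 < ψ' x
  surj : Function.Surjective ψ

lemma Dif.inj {ψ ψ' : ℝ → ℝ} (h : Dif ψ ψ') : Function.Injective ψ := by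
  have : StrictMono ψ := by
    apply strictMono_of_deriv_pos
    intro x
    rw [(h.der x).deriv]
    exact h.pos x
  exact this.injective

/-- **change of variables** -/
theorem lintegral_transport {ψ ψ' : ℝ → ℝ} (h : Dif ψ ψ') (F : (ι → ℝ) → ℝ≥0∞) :
    ∫⁻ t, F t = ∫⁻ s : ι → ℝ, ENNReal.ofReal (∏ i, ψ' (s i)) * F (fun i => ψ (s i)) := by
  have hd : ∀ s ∈ (univ : Set (ι → ℝ)), HasFDerivWithinAt (fun s : ι → ℝ => fun i => ψ (s i))
      (dg fun i => ψ' (s i)) univ s := by
    intro s _
    apply HasFDerivAt.hasFDerivWithinAt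
    apply hasFDerivAt_pi.2
    intro i
    have h1 := (h.der (s i)).comp_hasFDerivAt s (ContinuousLinearMap.proj (R := ℝ) (φ := fun _ : ι => ℝ) i).hasFDerivAt
    exact h1
  have hi : InjOn (fun s : ι → ℝ => fun i => ψ (s i)) univ := by
    intro s _ s' _ hss
    funext i
    exact h.inj (congrFun hss i)
  have him : (fun s : ι → ℝ => fun i => ψ (s i)) '' univ = univ := by
    rw [image_univ, range_eq_univ]
    intro t
    choose s hs using fun i => h.surj (t i)
    exact ⟨s, funext hs⟩
  have := lintegral_image_eq_lintegral_abs_det_fderiv_mul volume MeasurableSet.univ hd hi F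
  rw [him, setLIntegral_univ, setLIntegral_univ] at this
  rw [this]
  apply lintegral_congr
  intro s
  rw [dg_det, abs_of_pos (Finset.prod_pos fun i _ => h.pos _)]

/-- **the exponent of the transported weight** : off the diagonal the two-body terms are
`p i j (ψ x) (ψ y) = p i j x y * exp (κ i j x y)`, on the diagonal `κ i i x x = 2 log ψ'`. -/
theorem transport_weight {ψ ψ' : ℝ → ℝ} (h : Dif ψ ψ') {p : ι → ι → ℝ → ℝ → ℝ} {κ : ι → ι → ℝ → ℝ → ℝ}
    (hp : ∀ i j x y, p i j (ψ x) (ψ y) = p i j x y * Real.exp (κ i j x y))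
    (hs : ∀ i j x y, κ i j x y = κ j i y x)
    (hd : ∀ i x, κ i i x x = 2 * Real.log (ψ' x)) (V V0 : ι → ℝ → ℝ) [LinearOrder ι] (s : ι → ℝ) :
    (∏ i, ψ' (s i)) * ((∏ i, Real.exp (V i (ψ (s i)))) *
      ∏ i, ∏ j ∈ Finset.univ.filter (fun j => i < j), p i j (ψ (s i)) (ψ (s j))) =
    (∏ i, Real.exp (V0 i (s i))) * (∏ i, ∏ j ∈ Finset.univ.filter (fun j => i < j), p i j (s i) (s j)) *
      Real.exp ((∑ i, (V i (ψ (s i)) - V0 i (s i))) + 1 / 2 * ∑ i, ∑ j, κ i j (s i) (s j)) := by
  have h1 : ∏ i, ψ' (s i) = Real.exp (∑ i, 1 / 2 * κ i i (s i) (s i)) := by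
    rw [Real.exp_sum]
    refine Finset.prod_congr rfl fun i _ => ?_
    rw [hd, ← mul_assoc, one_div, inv_mul_cancel₀ two_ne_zero, one_mul, Real.exp_log (h.pos _)]
  have h2 : ∏ i, ∏ j ∈ Finset.univ.filter (fun j => i < j), p i j (ψ (s i)) (ψ (s j)) =
      (∏ i, ∏ j ∈ Finset.univ.filter (fun j => i < j), p i j (s i) (s j)) *
        Real.exp (∑ i, ∑ j ∈ Finset.univ.filter (fun j => i < j), κ i j (s i) (s j)) := by
    rw [Real.exp_sum, ← Finset.prod_mul_distrib]
    refine Finset.prod_congr rfl fun i _ => ?_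
    rw [Real.exp_sum, ← Finset.prod_mul_distrib]
    exact Finset.prod_congr rfl fun j _ => hp i j _ _
  have h3 : ∏ i, Real.exp (V i (ψ (s i))) = (∏ i, Real.exp (V0 i (s i))) *
      Real.exp (∑ i, (V i (ψ (s i)) - V0 i (s i))) := by
    rw [Real.exp_sum, ← Finset.prod_mul_distrib]
    refine Finset.prod_congr rfl fun i _ => ?_
    rw [← Real.exp_add]
    congr 1
    ring
  have h4 : 1 / 2 * ∑ i, ∑ j, κ i j (s i) (s j) = (∑ i, 1 / 2 * κ i i (s i) (s i)) +
      ∑ i, ∑ j ∈ Finset.univ.filter (fun j => i < j), κ i j (s i) (s j) := by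
    have e1 : ∀ i : ι, ∑ j, κ i j (s i) (s j) = κ i i (s i) (s i) +
        (∑ j ∈ Finset.univ.filter (fun j => i < j), κ i j (s i) (s j) +
          ∑ j ∈ Finset.univ.filter (fun j => j < i), κ i j (s i) (s j)) := by
      intro i
      have e2 : (Finset.univ : Finset ι) = insert i (Finset.univ.filter (fun j => i < j) ∪
          Finset.univ.filter (fun j => j < i)) := by
        ext j
        simp only [Finset.mem_univ, Finset.mem_insert, Finset.mem_union, Finset.mem_filter, true_and, true_iff]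
        rcases lt_trichotomy i j with h | h | h
        · exact Or.inr (Or.inl h)
        · exact Or.inl h.symm
        · exact Or.inr (Or.inr h)
      conv_lhs => rw [e2]
      rw [Finset.sum_insert (by simp), Finset.sum_union]
      rw [Finset.disjoint_filter]
      intro j _ h1 h2
      exact absurd h1 (not_lt.2 h2.le)
    have e3 : ∑ i, ∑ j ∈ Finset.univ.filter (fun j => j < i), κ i j (s i) (s j) =
        ∑ i, ∑ j ∈ Finset.univ.filter (fun j => i < j), κ i j (s i) (s j) := by
      simp only [Finset.sum_filter]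
      rw [Finset.sum_comm]
      refine Finset.sum_congr rfl fun i _ => Finset.sum_congr rfl fun j _ => ?_
      split_ifs
      · exact hs _ _ _ _
      · rfl
    simp_rw [e1]
    rw [Finset.sum_add_distrib, Finset.sum_add_distrib, e3, ← Finset.mul_sum]
    ring
  rw [h1, h2, h3, h4]
  simp only [Real.exp_add]
  ring

end NUTr
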