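import Mathlib

/-!
# Complex transport (contour shift) for `n`-fold integrals

`∫ G(t) dt = ∫ G(t + i η(t)) ∏ (1 + i η'(t_i)) dt`, with a different profile `η` for every
variable (species), for a function which is holomorphic in every variable on the closed
polystrip `|Im z_i| ≤ h`, continuous there, with an integrable majorant.
-/

set_option autoImplicit false

open MeasureTheory Set Filter Topology Complex

namespace NUCT

/-- the closed strip -/
def St (h : ℝ) : Set ℂ := {z | |z.im| ≤ h}

lemma convex_St (h : ℝ) : Convex ℝ (St h) := by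
  have : St h = Complex.imLm ⁻¹' (Icc (-h) h) := by
    ext z
    simp [St, abs_le]
  rw [this]
  exact (convex_Icc _ _).linear_preimage _

/-- a compactly supported profile with its derivative, below the level `h` -/
structure Prof (h : ℝ) (η η' : ℝ → ℝ) : Prop where
  der : ∀ t, HasDerivAt η (η' t) t
  cont : Continuous η'
  le : ∀ t, |η t| ≤ h
  supp : ∃ R : ℝ, 0 ≤ R ∧ ∀ t, R ≤ |t| → η t = 0 ∧ η' t = 0

variable {h : ℝ} {η η' : ℝ → ℝ}

/-- the shifted point -/
noncomputable def pt (η : ℝ → ℝ) (t : ℝ) : ℂ := (t : ℂ) + (η t : ℂ) * I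

/-- its derivative -/
noncomputable def jc (η' : ℝ → ℝ) (t : ℝ) : ℂ := 1 + (η' t : ℂ) * I

lemma pt_re (η : ℝ → ℝ) (t : ℝ) : (pt η t).re = t := by simp [pt]
lemma pt_im (η : ℝ → ℝ) (t : ℝ) : (pt η t).im = η t := by simp [pt]

lemma Prof.mem (P : Prof h η η') (t : ℝ) : pt η t ∈ St h := by
  show |(pt η t).im| ≤ h
  rw [pt_im]
  exact P.le t

lemma Prof.h0 (P : Prof h η η') : 0 ≤ h := (abs_nonneg _).trans (P.le 0)

lemma Prof.cont_η (P : Prof h η η') : Continuous η :=
  continuous_iff_continuousAt.2 fun t => (P.der t).continuousAt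

lemma Prof.cont_pt (P : Prof h η η') : Continuous (pt η) := by
  unfold pt
  have := P.cont_η
  fun_prop

lemma Prof.cont_jc (P : Prof h η η') : Continuous (jc η') := by
  unfold jc
  have := P.cont
  fun_prop

lemma Prof.der_pt (P : Prof h η η') (t : ℝ) : HasDerivAt (pt η) (jc η' t) t := by
  have h1 : HasDerivAt (fun t : ℝ => (t : ℂ)) 1 t := Complex.ofRealCLM.hasDerivAt
  have h2 : HasDerivAt (fun t : ℝ => ((η t : ℝ) : ℂ)) (η' t : ℂ) t := (P.der t).ofReal_comp
  exact h1.add (h2.mul_const I)

/-- one variable, on an interval with `η = 0` at both ends -/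
theorem shift_interval {f : ℂ → ℂ} (hf : DifferentiableOn ℂ f (St h)) (P : Prof h η η') {a b : ℝ}
    (ha : η a = 0) (hb : η b = 0) :
    ∫ t in a..b, f (pt η t) * jc η' t = ∫ t in a..b, f (t : ℂ) := by
  obtain ⟨g, hg⟩ := (convex_St h).exists_forall_hasDerivWithinAt hf
  have h1 : ∀ t : ℝ, HasDerivAt (fun t => g (pt η t)) (f (pt η t) * jc η' t) t := by
    intro t
    have := (hg (pt η t) (P.mem t)).scomp_hasDerivAt t (P.der_pt t) P.mem
    rw [smul_eq_mul, mul_comm] at this
    exact this
  have hr : ∀ t : ℝ, (t : ℂ) ∈ St h := by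
    intro t
    show |((t : ℂ)).im| ≤ h
    simpa using P.h0
  have h2 : ∀ t : ℝ, HasDerivAt (fun t : ℝ => g (t : ℂ)) (f (t : ℂ)) t := by
    intro t
    have h3 : HasDerivAt (fun t : ℝ => (t : ℂ)) 1 t := Complex.ofRealCLM.hasDerivAt
    have := (hg (t : ℂ) (hr t)).scomp_hasDerivAt t h3 hr
    rw [one_smul] at this
    exact this
  have c1 : Continuous fun t => f (pt η t) * jc η' t := by
    refine Continuous.mul ?_ P.cont_jc
    exact hf.continuousOn.comp_continuous P.cont_pt P.mem
  have c2 : Continuous fun t : ℝ => f (t : ℂ) :=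
    hf.continuousOn.comp_continuous Complex.continuous_ofReal hr
  rw [intervalIntegral.integral_eq_sub_of_hasDerivAt (fun t _ => h1 t) (c1.intervalIntegrable _ _),
    intervalIntegral.integral_eq_sub_of_hasDerivAt (fun t _ => h2 t) (c2.intervalIntegrable _ _)]
  simp [pt, ha, hb]

/-- **one variable, on the line** -/
theorem shift_line {f : ℂ → ℂ} (hf : DifferentiableOn ℂ f (St h)) (P : Prof h η η') :
    ∫ t : ℝ, f (pt η t) * jc η' t = ∫ t : ℝ, f (t : ℂ) := by
  obtain ⟨R, hR0, hR⟩ := P.supp
  have hr : ∀ t : ℝ, (t : ℂ) ∈ St h := by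
    intro t
    show |((t : ℂ)).im| ≤ h
    simpa using P.h0
  have c1 : Continuous fun t => f (pt η t) * jc η' t := by
    refine Continuous.mul ?_ P.cont_jc
    exact hf.continuousOn.comp_continuous P.cont_pt P.mem
  have c2 : Continuous fun t : ℝ => f (t : ℂ) :=
    hf.continuousOn.comp_continuous Complex.continuous_ofReal hr
  set D : ℝ → ℂ := fun t => f (pt η t) * jc η' t - f (t : ℂ) with hD
  have cD : Continuous D := c1.sub c2
  have hD0 : ∀ t, t ∉ Icc (-R) R → D t = 0 := by
    intro t ht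
    have : R ≤ |t| := by
      by_contra hc
      exact ht (abs_le.1 (not_le.1 hc).le)
    obtain ⟨e1, e2⟩ := hR t this
    simp [hD, pt, jc, e1, e2]
  have iD : Integrable D := by
    apply (integrable_indicator_iff measurableSet_Icc).2 (cD.integrableOn_Icc (a := -R) (b := R)) |>.congr
    refine Eventually.of_forall fun t => ?_
    by_cases ht : t ∈ Icc (-R) R
    · simp [ht]
    · simp [ht, hD0 t ht]
  have sD : ∫ t, D t = 0 := by
    have e1 : ∫ t, D t = ∫ t in Icc (-R) R, D t := by
      rw [setIntegral_eq_integral_of_forall_compl_eq_zero]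
      exact fun t ht => hD0 t ht
    rw [e1, integral_Icc_eq_integral_Ioc, ← intervalIntegral.integral_of_le (by linarith)]
    rw [hD, intervalIntegral.integral_sub (c1.intervalIntegrable _ _) (c2.intervalIntegrable _ _)]
    rw [shift_interval hf P (hR (-R) (by rw [abs_neg]; exact le_abs_self R)).1
      (hR R (le_abs_self R)).1, sub_self]
  by_cases hi : Integrable fun t : ℝ => f (t : ℂ)
  · have e : (fun t => f (pt η t) * jc η' t) = fun t => D t + f (t : ℂ) := by
      funext t
      simp [hD]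
    rw [e, integral_add iD hi, sD, zero_add]
  · have hi' : ¬ Integrable fun t => f (pt η t) * jc η' t := by
      intro hc
      apply hi
      refine (hc.sub iD).congr (Eventually.of_forall fun t => ?_)
      simp [hD]
    rw [integral_undef hi, integral_undef hi']

/-! ### several variables -/

section Multi

variable {ι : Type*} [Fintype ι] [DecidableEq ι]

/-- insert the value `u` at the place `j` -/
def ins (j : ι) (u : ℝ) (y : {i : ι // ¬ i = j} → ℝ) : ι → ℝ :=
  fun i => if hi : i = j then u else y ⟨i, hi⟩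

lemma integral_unique_pi {α : Type*} [inst : Fintype α] [Unique α] (F : (α → ℝ) → ℂ) :
    (∫ x : α → ℝ, F x) = ∫ u : ℝ, F (fun _ => u) := by
  have hi : inst = Unique.fintype := Subsingleton.elim _ _
  subst hi
  have e2 := volume_preserving_funUnique α ℝ
  have := e2.symm.integral_comp (MeasurableEquiv.measurableEmbedding _) F
  rw [← this]
  rfl

/-- Fubini for one variable -/
theorem slice (j : ι) {H : (ι → ℝ) → ℂ} (hH : Integrable H) :
    (∫ t, H t = ∫ y : {i : ι // ¬ i = j} → ℝ, ∫ u : ℝ, H (ins j u y)) := by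
  have e1 := volume_preserving_piEquivPiSubtypeProd (fun _ : ι => ℝ) (fun i => i = j)
  have h1 := e1.symm.integral_comp (MeasurableEquiv.measurableEmbedding _) H
  have h2 := (e1.symm.integrable_comp_emb (MeasurableEquiv.measurableEmbedding _)).2 hH
  rw [← h1]
  rw [Measure.volume_eq_prod] at h2 ⊢
  refine (integral_prod_symm _ h2).trans ?_
  refine integral_congr_ae (Eventually.of_forall fun y => ?_)
  simp only [Function.comp]
  refine (@integral_unique_pi {i : ι // i = j} (Subtype.fintype _) _ _).trans ?_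
  refine integral_congr_ae (Eventually.of_forall fun u => ?_)
  simp only
  congr 1

/-- the closed polystrip -/
def PSt (ι : Type*) (h : ℝ) : Set (ι → ℂ) := {z | ∀ i, |(z i).im| ≤ h}

variable {η η' : ι → ℝ → ℝ}

/-- the point shifted in the variables of `S` -/
noncomputable def ptS (η : ι → ℝ → ℝ) (S : Finset ι) (t : ι → ℝ) : ι → ℂ :=
  fun i => if i ∈ S then pt (η i) (t i) else (t i : ℂ)

/-- its Jacobian -/
noncomputable def jS (η' : ι → ℝ → ℝ) (S : Finset ι) (t : ι → ℝ) : ℂ := ∏ i ∈ S, jc (η' i) (t i)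

omit [Fintype ι] in
lemma ptS_mem (P : ∀ i, Prof h (η i) (η' i)) (h0 : 0 ≤ h) (S : Finset ι) (t : ι → ℝ) :
    ptS η S t ∈ PSt ι h := by
  intro i
  unfold ptS
  split_ifs
  · exact (P i).mem (t i)
  · simpa using h0

omit [Fintype ι] in
lemma ptS_re (S : Finset ι) (t : ι → ℝ) (i : ι) : (ptS η S t i).re = t i := by
  unfold ptS
  split_ifs
  · exact pt_re _ _
  · simp

omit [Fintype ι] in
lemma continuous_ptS (P : ∀ i, Prof h (η i) (η' i)) (S : Finset ι) : Continuous (ptS η S) := by
  refine continuous_pi fun i => ?_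
  unfold ptS
  by_cases hi : i ∈ S
  · simp only [hi, if_true]
    exact (P i).cont_pt.comp (continuous_apply i)
  · simp only [hi, if_false]
    exact Complex.continuous_ofReal.comp (continuous_apply i)

omit [Fintype ι] [DecidableEq ι] in
lemma continuous_jS (P : ∀ i, Prof h (η i) (η' i)) (S : Finset ι) : Continuous (jS η' S) := by
  unfold jS
  exact continuous_finsetProd _ fun i _ => (P i).cont_jc.comp (continuous_apply i)

lemma Prof.bdd {η η' : ℝ → ℝ} (P : Prof h η η') : ∃ M : ℝ, 1 ≤ M ∧ ∀ t, ‖jc η' t‖ ≤ M := by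
  obtain ⟨R, hR0, hR⟩ := P.supp
  obtain ⟨M, hM⟩ := (isCompact_Icc (a := -R) (b := R)).exists_bound_of_continuousOn
    (f := jc η') P.cont_jc.continuousOn
  refine ⟨max M 1, le_max_right _ _, fun t => ?_⟩
  by_cases ht : t ∈ Icc (-R) R
  · exact (hM t ht).trans (le_max_left _ _)
  · have : R ≤ |t| := by
      by_contra hc
      exact ht (abs_le.1 (not_le.1 hc).le)
    rw [jc, (hR t this).2]
    simp

omit [Fintype ι] [DecidableEq ι] in
lemma jS_le (P : ∀ i, Prof h (η i) (η' i)) (S : Finset ι) : ∃ M : ℝ, 0 ≤ M ∧ ∀ t, ‖jS η' S t‖ ≤ M := by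
  choose M hM1 hM using fun i => (P i).bdd
  refine ⟨∏ i ∈ S, M i, Finset.prod_nonneg fun i _ => zero_le_one.trans (hM1 i), fun t => ?_⟩
  unfold jS
  rw [norm_prod]
  exact Finset.prod_le_prod (fun i _ => norm_nonneg _) fun i _ => hM i _

/-- the hypotheses on the integrand : continuous on the closed polystrip, holomorphic in every
variable, with an integrable majorant depending on the real parts only -/
structure Adm (h : ℝ) (G : (ι → ℂ) → ℂ) : Prop where
  cont : ContinuousOn G (PSt ι h)
  hol : ∀ z ∈ PSt ι h, ∀ j, DifferentiableOn ℂ (fun w => G (Function.update z j w)) (St h)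
  maj : ∃ B : (ι → ℝ) → ℝ, Integrable B ∧ ∀ z ∈ PSt ι h, ‖G z‖ ≤ B fun i => (z i).re

lemma Adm.integrable {G : (ι → ℂ) → ℂ} (hG : Adm h G) (P : ∀ i, Prof h (η i) (η' i)) (h0 : 0 ≤ h)
    (S : Finset ι) : Integrable fun t : ι → ℝ => G (ptS η S t) * jS η' S t := by
  obtain ⟨B, hB, hGB⟩ := hG.maj
  obtain ⟨M, hM0, hM⟩ := jS_le P S
  refine (hB.const_mul M).mono' ?_ (Eventually.of_forall fun t => ?_)
  · refine Continuous.aestronglyMeasurable (Continuous.mul ?_ (continuous_jS P S))
    exact hG.cont.comp_continuous (continuous_ptS P S) (ptS_mem P h0 S)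
  · rw [norm_mul, mul_comm]
    have h1 := hGB _ (ptS_mem P h0 S t)
    simp only [ptS_re] at h1
    have h2 : 0 ≤ B t := (norm_nonneg _).trans h1
    exact mul_le_mul (hM t) h1 (norm_nonneg _) hM0

theorem shift_step {G : (ι → ℂ) → ℂ} (hG : Adm h G) (P : ∀ i, Prof h (η i) (η' i)) (h0 : 0 ≤ h)
    (S : Finset ι) {j : ι} (hj : j ∉ S) :
    (∫ t : ι → ℝ, G (ptS η (insert j S) t) * jS η' (insert j S) t) =
      ∫ t : ι → ℝ, G (ptS η S t) * jS η' S t := by
  rw [slice j (hG.integrable P h0 _), slice j (hG.integrable P h0 _)]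
  refine integral_congr_ae (Eventually.of_forall fun y => ?_)
  simp only
  set z0 : ι → ℂ := ptS η S (ins j 0 y) with hz0
  have k1 : ∀ u : ℝ, ptS η (insert j S) (ins j u y) = Function.update z0 j (pt (η j) u) := by
    intro u
    funext i
    by_cases hi : i = j
    · subst hi
      simp [ptS, ins]
    · simp [ptS, ins, hi, hz0]
  have k2 : ∀ u : ℝ, ptS η S (ins j u y) = Function.update z0 j (u : ℂ) := by
    intro u
    funext i
    by_cases hi : i = j
    · subst hi
      simp [ptS, ins, hj]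
    · simp [ptS, ins, hi, hz0]
  have k3 : ∀ u : ℝ, jS η' S (ins j u y) = jS η' S (ins j 0 y) := by
    intro u
    unfold jS
    refine Finset.prod_congr rfl fun i hi => ?_
    have : i ≠ j := fun e => hj (e ▸ hi)
    simp [ins, this]
  have k4 : ∀ u : ℝ, jS η' (insert j S) (ins j u y) = jc (η' j) u * jS η' S (ins j 0 y) := by
    intro u
    rw [← k3 u, jS, Finset.prod_insert hj, ← jS]
    simp [ins]
  have e1 : ∀ u : ℝ, G (ptS η (insert j S) (ins j u y)) * jS η' (insert j S) (ins j u y) =
      (G (Function.update z0 j (pt (η j) u)) * jc (η' j) u) * jS η' S (ins j 0 y) := by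
    intro u
    rw [k1, k4]
    ring
  have e2 : ∀ u : ℝ, G (ptS η S (ins j u y)) * jS η' S (ins j u y) =
      G (Function.update z0 j (u : ℂ)) * jS η' S (ins j 0 y) := by
    intro u
    rw [k2, k3]
  simp only [e1, e2]
  rw [integral_mul_const, integral_mul_const]
  congr 1
  exact shift_line (hG.hol z0 (ptS_mem P h0 _ _) j) (P j)

/-- **complex transport, `n`-fold** -/
theorem shift_multi {G : (ι → ℂ) → ℂ} (hG : Adm h G) (P : ∀ i, Prof h (η i) (η' i)) (h0 : 0 ≤ h) :
    (∫ t : ι → ℝ, G (fun i => pt (η i) (t i)) * ∏ i, jc (η' i) (t i)) =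
      ∫ t : ι → ℝ, G fun i => (t i : ℂ) := by
  have key : ∀ S : Finset ι, (∫ t : ι → ℝ, G (ptS η S t) * jS η' S t) =
      ∫ t : ι → ℝ, G fun i => (t i : ℂ) := by
    intro S
    induction S using Finset.induction_on with
    | empty =>
      have e : ∀ t : ι → ℝ, ptS η ∅ t = fun i => (t i : ℂ) := fun t => by
        funext i
        simp [ptS]
      simp [jS, e]
    | insert j S hj ih => rw [shift_step hG P h0 S hj, ih]
  have e : ∀ t : ι → ℝ, ptS η Finset.univ t = fun i => pt (η i) (t i) := fun t => by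
    funext i
    simp [ptS]
  have := key Finset.univ
  simp only [e] at this
  exact this

/-- **modulus form** -/
theorem norm_le {G : (ι → ℂ) → ℂ} (hG : Adm h G) (P : ∀ i, Prof h (η i) (η' i)) (h0 : 0 ≤ h) :
    ‖∫ t : ι → ℝ, G fun i => (t i : ℂ)‖ ≤
      ∫ t : ι → ℝ, ‖G fun i => pt (η i) (t i)‖ * ∏ i, Real.sqrt (1 + η' i (t i) ^ 2) := by
  rw [← shift_multi hG P h0]
  refine (norm_integral_le_integral_norm _).trans (le_of_eq ?_)
  refine integral_congr_ae (Eventually.of_forall fun t => ?_)
  simp only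
  rw [norm_mul, norm_prod]
  congr 1
  refine Finset.prod_congr rfl fun i _ => ?_
  rw [jc, ← Complex.ofReal_one, Complex.norm_add_mul_I]
  norm_num

/-- **bookkeeping** : the Jacobian is the diagonal of the two-body exponent. -/
theorem pair_exponent [LinearOrder ι] {κ : ι → ι → ℝ → ℝ → ℝ} (hs : ∀ i j x y, κ i j x y = κ j i y x)
    (hd : ∀ i x, κ i i x x = Real.log (1 + η' i x ^ 2)) (t : ι → ℝ) :
    (∏ i, Real.sqrt (1 + η' i (t i) ^ 2)) *
      (∏ i, ∏ j ∈ Finset.univ.filter (fun j => i < j), Real.exp (κ i j (t i) (t j))) =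
    Real.exp (1 / 2 * ∑ i, ∑ j, κ i j (t i) (t j)) := by
  have p0 : ∀ i x, 0 < 1 + η' i x ^ 2 := fun i x => by positivity
  have h1 : ∏ i, Real.sqrt (1 + η' i (t i) ^ 2) = Real.exp (∑ i, 1 / 2 * κ i i (t i) (t i)) := by
    rw [Real.exp_sum]
    refine Finset.prod_congr rfl fun i _ => ?_
    rw [hd, Real.sqrt_eq_rpow, Real.rpow_def_of_pos (p0 _ _)]
    congr 1
    ring
  have h2 : (∏ i, ∏ j ∈ Finset.univ.filter (fun j => i < j), Real.exp (κ i j (t i) (t j))) =
        Real.exp (∑ i, ∑ j ∈ Finset.univ.filter (fun j => i < j), κ i j (t i) (t j)) := by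
    rw [Real.exp_sum]
    refine Finset.prod_congr rfl fun i _ => ?_
    rw [Real.exp_sum]
  have h4 : 1 / 2 * ∑ i, ∑ j, κ i j (t i) (t j) = (∑ i, 1 / 2 * κ i i (t i) (t i)) +
      ∑ i, ∑ j ∈ Finset.univ.filter (fun j => i < j), κ i j (t i) (t j) := by
    have e1 : ∀ i : ι, ∑ j, κ i j (t i) (t j) = κ i i (t i) (t i) +
        (∑ j ∈ Finset.univ.filter (fun j => i < j), κ i j (t i) (t j) +
          ∑ j ∈ Finset.univ.filter (fun j => j < i), κ i j (t i) (t j)) := by
      intro i
      have e2 : (Finset.univ : Finset ι) = insert i (Finset.univ.filter (fun j => i < j) ∪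
          Finset.univ.filter (fun j => j < i)) := by
        ext j
        simp only [Finset.mem_univ, Finset.mem_insert, Finset.mem_union, Finset.mem_filter, true_and, true_iff]
        rcases lt_trichotomy i j with h | h | h
        · exact Or.inr (Or.inl h)
        · exact Or.inl h.symm
        · exact Or.inr (Or.inr h)
      conv_lhs => rw [e2]
      rw [Finset.sum_insert (by simp), Finset.sum_union]
      rw [Finset.disjoint_filter]
      intro j _ h1 h2
      exact absurd h1 (not_lt.2 h2.le)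
    have e3 : ∑ i, ∑ j ∈ Finset.univ.filter (fun j => j < i), κ i j (t i) (t j) =
        ∑ i, ∑ j ∈ Finset.univ.filter (fun j => i < j), κ i j (t i) (t j) := by
      simp only [Finset.sum_filter]
      rw [Finset.sum_comm]
      refine Finset.sum_congr rfl fun i _ => Finset.sum_congr rfl fun j _ => ?_
      split_ifs
      · exact hs _ _ _ _
      · rfl
    rw [Finset.sum_congr rfl fun i _ => e1 i, Finset.sum_add_distrib, Finset.sum_add_distrib, e3,
      ← Finset.mul_sum]
    ring
  rw [h1, h2, ← Real.exp_add, h4]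

end Multi

end NUCT
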