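import Mathlib

/-!
# Exponential moments of quadratic statistics (nu34/85c, section 1)

`E exp(Σ a_k X_k) ≤ exp(C + σ/2 Σ a_k²)` for all real `a` implies
`E exp(c/2 Σ X_k²) ≤ e^C (1 - c σ)^{-K/2}`; then `E exp Y = (…)^{±ε}` for `|Y| ≤ ε Q`.
-/

set_option autoImplicit false

open MeasureTheory Set Filter Topology ENNReal

namespace NUTr

lemma gs_int {b : ℝ} (hb : 0 < b) (y : ℝ) : Integrable (fun g : ℝ => Real.exp (y * g - b * g ^ 2)) ∧
    ∫ g : ℝ, Real.exp (y * g - b * g ^ 2) = √(Real.pi / b) * Real.exp (y ^ 2 / (4 * b)) := by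
  have e : ∀ g : ℝ, Real.exp (y * g - b * g ^ 2) =
      Real.exp (-b * (g - y / (2 * b)) ^ 2) * Real.exp (y ^ 2 / (4 * b)) := by
    intro g
    rw [← Real.exp_add]
    congr 1
    field_simp
    ring
  have h1 := (integrable_exp_neg_mul_sq hb).comp_sub_right (y / (2 * b))
  refine ⟨?_, ?_⟩
  · simp_rw [e]
    exact h1.mul_const _
  · simp_rw [e]
    rw [integral_mul_const, integral_sub_right_eq_self (fun g : ℝ => Real.exp (-b * g ^ 2)), integral_gaussian]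

lemma gs_lint {K : ℕ} {b : ℝ} (hb : 0 < b) (y : Fin K → ℝ) :
    ∫⁻ g : Fin K → ℝ, ENNReal.ofReal (Real.exp (∑ k, (y k * g k - b * g k ^ 2))) =
      ENNReal.ofReal (√(Real.pi / b) ^ K * Real.exp ((∑ k, y k ^ 2) / (4 * b))) := by
  have hi : Integrable (fun g : Fin K → ℝ => ∏ k, Real.exp (y k * g k - b * g k ^ 2)) :=
    Integrable.fintype_prod (f := fun k (g : ℝ) => Real.exp (y k * g - b * g ^ 2)) fun k => (gs_int hb (y k)).1
  have h1 := integral_fintype_prod_volume_eq_prod (fun (k : Fin K) (g : ℝ) => Real.exp (y k * g - b * g ^ 2))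
  have h2 : ∀ g : Fin K → ℝ, Real.exp (∑ k, (y k * g k - b * g k ^ 2)) =
      ∏ k, Real.exp (y k * g k - b * g k ^ 2) := fun g => Real.exp_sum _ _
  simp_rw [h2]
  rw [← ofReal_integral_eq_lintegral_ofReal hi (Eventually.of_forall fun g => by positivity), h1]
  congr 1
  simp_rw [(gs_int hb _).2]
  rw [Finset.prod_mul_distrib, Finset.prod_const, Finset.card_univ, Fintype.card_fin, ← Real.exp_sum,
    Finset.sum_div]

/-- **Hubbard-Stratonovich with finitely many modes** -/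
theorem exp_quad {Ω : Type*} [MeasurableSpace Ω] {μ : Measure Ω} [SFinite μ] {K : ℕ} {X : Fin K → Ω → ℝ}
    (hX : ∀ k, Measurable (X k)) {C σ c : ℝ} (hc : 0 ≤ c) (hcs : c * σ < 1)
    (h : ∀ a : Fin K → ℝ, ∫⁻ ω, ENNReal.ofReal (Real.exp (∑ k, a k * X k ω)) ∂μ ≤
      ENNReal.ofReal (Real.exp (C + σ / 2 * ∑ k, a k ^ 2))) :
    ∫⁻ ω, ENNReal.ofReal (Real.exp (c / 2 * ∑ k, X k ω ^ 2)) ∂μ ≤
      ENNReal.ofReal (Real.exp C * (√(1 / (1 - c * σ))) ^ K) := by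
  have hpi := Real.pi_pos
  have hcs' : 0 < (1 - c * σ) / 2 := by linarith
  have hs2 : 0 < √(Real.pi / (1 / 2)) ^ K := by positivity
  -- the left side times the Gaussian constant
  have h1 : ∀ ω, ENNReal.ofReal (√(Real.pi / (1 / 2)) ^ K) * ENNReal.ofReal (Real.exp (c / 2 * ∑ k, X k ω ^ 2)) =
      ∫⁻ g : Fin K → ℝ, ENNReal.ofReal (Real.exp (∑ k, (√c * X k ω * g k - 1 / 2 * g k ^ 2))) := by
    intro ω
    rw [gs_lint (by norm_num) (fun k => √c * X k ω), ← ENNReal.ofReal_mul hs2.le]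
    congr 3
    simp_rw [mul_pow, Real.sq_sqrt hc]
    rw [← Finset.mul_sum]
    ring
  have h2 : ENNReal.ofReal (√(Real.pi / (1 / 2)) ^ K) * ∫⁻ ω, ENNReal.ofReal (Real.exp (c / 2 * ∑ k, X k ω ^ 2)) ∂μ =
      ∫⁻ g : Fin K → ℝ, ∫⁻ ω, ENNReal.ofReal (Real.exp (∑ k, (√c * X k ω * g k - 1 / 2 * g k ^ 2))) ∂μ := by
    rw [← lintegral_const_mul _ (by fun_prop)]
    simp_rw [h1]
    exact lintegral_lintegral_swap (by fun_prop)
  have h3 : ∀ g : Fin K → ℝ, ∫⁻ ω, ENNReal.ofReal (Real.exp (∑ k, (√c * X k ω * g k - 1 / 2 * g k ^ 2))) ∂μ ≤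
      ENNReal.ofReal (Real.exp C) * ENNReal.ofReal (Real.exp (∑ k, (0 * g k - (1 - c * σ) / 2 * g k ^ 2))) := by
    intro g
    have e1 : ∀ ω, ENNReal.ofReal (Real.exp (∑ k, (√c * X k ω * g k - 1 / 2 * g k ^ 2))) =
        ENNReal.ofReal (Real.exp (-(1 / 2 * ∑ k, g k ^ 2))) *
          ENNReal.ofReal (Real.exp (∑ k, (√c * g k) * X k ω)) := by
      intro ω
      rw [← ENNReal.ofReal_mul (Real.exp_pos _).le, ← Real.exp_add]
      congr 2
      rw [Finset.sum_sub_distrib, Finset.mul_sum]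
      have : ∑ k, √c * X k ω * g k = ∑ k, (√c * g k) * X k ω :=
        Finset.sum_congr rfl fun k _ => by ring
      rw [this]
      ring
    simp_rw [e1]
    rw [lintegral_const_mul _ (by fun_prop)]
    refine (mul_le_mul_right (h fun k => √c * g k) _).trans (le_of_eq ?_)
    rw [← ENNReal.ofReal_mul (Real.exp_pos _).le, ← ENNReal.ofReal_mul (Real.exp_pos _).le, ← Real.exp_add,
      ← Real.exp_add]
    congr 2
    simp_rw [mul_pow, Real.sq_sqrt hc, zero_mul, zero_sub]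
    rw [Finset.sum_neg_distrib, ← Finset.mul_sum, ← Finset.mul_sum]
    ring
  have h4 : ENNReal.ofReal (√(Real.pi / (1 / 2)) ^ K) * ∫⁻ ω, ENNReal.ofReal (Real.exp (c / 2 * ∑ k, X k ω ^ 2)) ∂μ ≤
      ENNReal.ofReal (Real.exp C) * ENNReal.ofReal (√(Real.pi / ((1 - c * σ) / 2)) ^ K) := by
    rw [h2]
    refine (lintegral_mono h3).trans ?_
    rw [lintegral_const_mul _ (by fun_prop), gs_lint hcs' (fun _ => 0)]
    simp
  have h5 : ENNReal.ofReal (√(Real.pi / (1 / 2)) ^ K) ≠ 0 := by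
    rw [Ne, ENNReal.ofReal_eq_zero, not_le]
    exact hs2
  rw [← ENNReal.ofReal_mul (Real.exp_pos _).le] at h4
  have h6 : Real.exp C * √(Real.pi / ((1 - c * σ) / 2)) ^ K =
      √(Real.pi / (1 / 2)) ^ K * (Real.exp C * √(1 / (1 - c * σ)) ^ K) := by
    have : √(Real.pi / ((1 - c * σ) / 2)) = √(Real.pi / (1 / 2)) * √(1 / (1 - c * σ)) := by
      rw [← Real.sqrt_mul (by positivity)]
      congr 1
      field_simp
    rw [this, mul_pow]
    ring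
  rw [h6, ENNReal.ofReal_mul hs2.le] at h4
  exact (ENNReal.mul_le_mul_iff_right h5 ENNReal.ofReal_ne_top).1 h4

/-- upper bound by Hoelder -/
theorem exp_small_le {Ω : Type*} [MeasurableSpace Ω] {μ : Measure Ω} [IsProbabilityMeasure μ] {Q Y : Ω → ℝ}
    (hQ : Measurable Q) {ε : ℝ} (hε : 0 < ε) (hε1 : ε ≤ 1) (hY : ∀ ω, Y ω ≤ ε * Q ω) {M : ℝ≥0∞}
    (hM : ∫⁻ ω, ENNReal.ofReal (Real.exp (Q ω)) ∂μ ≤ M) :
    ∫⁻ ω, ENNReal.ofReal (Real.exp (Y ω)) ∂μ ≤ M ^ ε := by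
  have h1 : ∫⁻ ω, ENNReal.ofReal (Real.exp (Y ω)) ∂μ ≤ ∫⁻ ω, ENNReal.ofReal (Real.exp (ε * Q ω)) ∂μ :=
    lintegral_mono fun ω => ENNReal.ofReal_le_ofReal (Real.exp_le_exp.2 (hY ω))
  have h2 := eLpNorm'_le_eLpNorm'_of_exponent_le (f := fun ω => Real.exp (ε * Q ω)) one_pos
    (one_le_one_div hε hε1 : (1 : ℝ) ≤ 1 / ε) μ (by fun_prop)
  unfold eLpNorm' at h2
  have e1 : ∫⁻ ω, ‖Real.exp (ε * Q ω)‖ₑ ^ (1 : ℝ) ∂μ = ∫⁻ ω, ENNReal.ofReal (Real.exp (ε * Q ω)) ∂μ := by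
    refine lintegral_congr fun ω => ?_
    rw [ENNReal.rpow_one, Real.enorm_eq_ofReal (Real.exp_pos _).le]
  have e2 : ∫⁻ ω, ‖Real.exp (ε * Q ω)‖ₑ ^ (1 / ε : ℝ) ∂μ = ∫⁻ ω, ENNReal.ofReal (Real.exp (Q ω)) ∂μ := by
    refine lintegral_congr fun ω => ?_
    rw [Real.enorm_eq_ofReal (Real.exp_pos _).le, ENNReal.ofReal_rpow_of_pos (Real.exp_pos _), ← Real.exp_mul]
    congr 2
    field_simp
  rw [e1, e2] at h2
  have h3 : (∫⁻ ω, ENNReal.ofReal (Real.exp (ε * Q ω)) ∂μ) ^ (1 / (1 : ℝ)) =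
      ∫⁻ ω, ENNReal.ofReal (Real.exp (ε * Q ω)) ∂μ := by simp
  rw [h3, one_div_one_div] at h2
  exact h1.trans (h2.trans (ENNReal.rpow_le_rpow hM hε.le))

/-- lower bound by Cauchy-Schwarz -/
theorem le_exp_small {Ω : Type*} [MeasurableSpace Ω] {μ : Measure Ω} [IsProbabilityMeasure μ] {Q Y : Ω → ℝ}
    (hQ : Measurable Q) (hYm : Measurable Y) {ε : ℝ} (hε : 0 < ε) (hε1 : ε ≤ 1) (hY : ∀ ω, -(ε * Q ω) ≤ Y ω)
    {M : ℝ≥0∞} (hM : ∫⁻ ω, ENNReal.ofReal (Real.exp (Q ω)) ∂μ ≤ M) :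
    1 ≤ M ^ ε * ∫⁻ ω, ENNReal.ofReal (Real.exp (Y ω)) ∂μ := by
  have h1 := exp_small_le (μ := μ) (Y := fun ω => -Y ω) hQ hε hε1 (fun ω => by have := hY ω; linarith) hM
  have h2 : (1 : ℝ≥0∞) ≤ (∫⁻ ω, ENNReal.ofReal (Real.exp (-Y ω)) ∂μ) * ∫⁻ ω, ENNReal.ofReal (Real.exp (Y ω)) ∂μ := by
    have h3 := ENNReal.lintegral_mul_le_Lp_mul_Lq μ (p := 2) (q := 2) (Real.HolderConjugate.two_two)
      (f := fun ω => ENNReal.ofReal (Real.exp (-Y ω / 2))) (g := fun ω => ENNReal.ofReal (Real.exp (Y ω / 2)))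
      (by fun_prop) (by fun_prop)
    have e1 : ∫⁻ ω, ((fun ω => ENNReal.ofReal (Real.exp (-Y ω / 2))) * fun ω => ENNReal.ofReal (Real.exp (Y ω / 2))) ω ∂μ = 1 := by
      have : ∀ ω, ((fun ω => ENNReal.ofReal (Real.exp (-Y ω / 2))) * fun ω => ENNReal.ofReal (Real.exp (Y ω / 2))) ω = 1 := by
        intro ω
        show ENNReal.ofReal (Real.exp (-Y ω / 2)) * ENNReal.ofReal (Real.exp (Y ω / 2)) = 1
        rw [← ENNReal.ofReal_mul (Real.exp_pos _).le, ← Real.exp_add, show -Y ω / 2 + Y ω / 2 = 0 by ring,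
          Real.exp_zero, ENNReal.ofReal_one]
      simp_rw [this]
      simp
    have e2 : ∀ z : ℝ, ENNReal.ofReal (Real.exp (z / 2)) ^ (2 : ℝ) = ENNReal.ofReal (Real.exp z) := by
      intro z
      rw [ENNReal.ofReal_rpow_of_pos (Real.exp_pos _), ← Real.exp_mul]
      congr 2
      ring
    rw [e1] at h3
    simp_rw [e2] at h3
    have h4 := ENNReal.rpow_le_rpow h3 (zero_le_two : (0 : ℝ) ≤ 2)
    rw [ENNReal.one_rpow, ENNReal.mul_rpow_of_nonneg _ _ (zero_le_two : (0 : ℝ) ≤ 2), ← ENNReal.rpow_mul,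
      ← ENNReal.rpow_mul] at h4
    norm_num at h4
    exact h4
  exact h2.trans (mul_le_mul_left h1 _)

end NUTr
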