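import Mathlib

/-!
# Complex shifts of the integration lines of a gas (nu34/85c)

`integral_shift` : the line may be replaced by the curve `t + i η(t)`, `η` of compact support. `integral_shift_pi` : the
same for a function of several variables, every variable has its own curve.
-/

set_option autoImplicit false

open MeasureTheory Set Filter Topology Complex

namespace NUSh

/-- the open strip -/
def strip (d : ℝ) : Set ℂ := {z | |z.im| < d}

theorem ball_sub_strip {d : ℝ} (t : ℝ) : Metric.ball (t : ℂ) d ⊆ strip d := by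
  intro z hz
  rw [Metric.mem_ball, dist_eq_norm] at hz
  have h := abs_im_le_norm (z - t)
  rw [sub_im, ofReal_im, sub_zero] at h
  exact lt_of_le_of_lt h hz

/-- the vertical integrals between the line and the curve -/
noncomputable def vert (f : ℂ → ℂ) (η : ℝ → ℝ) (t : ℝ) : ℂ := ∫ s in (0 : ℝ)..(η t), I * f (t + s * I)

theorem vert_eq {f F : ℂ → ℂ} {d t t0 y : ℝ} (hF : ∀ z ∈ Metric.ball (t0 : ℂ) d, HasDerivAt F (f z) z)
    (hf : DifferentiableOn ℂ f (strip d)) (hy : (t - t0) ^ 2 + y ^ 2 < d ^ 2) (hd : 0 < d) :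
    ∫ s in (0 : ℝ)..y, I * f (t + s * I) = F (t + y * I) - F t := by
  have hm : ∀ s ∈ uIcc (0 : ℝ) y, ((t : ℂ) + s * I) ∈ Metric.ball (t0 : ℂ) d := by
    intro s hs
    rw [Metric.mem_ball, dist_eq_norm]
    have e : (t : ℂ) + s * I - t0 = ((t - t0 : ℝ) : ℂ) + (s : ℝ) * I := by push_cast; ring
    rw [e, norm_add_mul_I, Real.sqrt_lt' hd]
    have hs2 : s ^ 2 ≤ y ^ 2 := by
      rw [sq_le_sq]
      rcases le_total 0 y with h | h
      · rw [uIcc_of_le h] at hs
        rw [abs_of_nonneg hs.1, abs_of_nonneg h]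
        exact hs.2
      · rw [uIcc_of_ge h] at hs
        rw [abs_of_nonpos hs.2, abs_of_nonpos h]
        linarith [hs.1]
    linarith
  have h1 : ∀ s ∈ uIcc (0 : ℝ) y, HasDerivAt (fun s : ℝ => F (t + s * I)) (I * f (t + s * I)) s := by
    intro s hs
    have h2 : HasDerivAt (fun s : ℝ => (t : ℂ) + s * I) I s := by
      have := ((hasDerivAt_id s).ofReal_comp.mul_const I).const_add (t : ℂ)
      simpa using this
    have h3 := (hF _ (hm s hs)).comp s h2
    rw [mul_comm I]
    exact h3
  have h2 : ContinuousOn (fun s : ℝ => I * f (t + s * I)) (uIcc 0 y) := by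
    refine continuousOn_const.mul ?_
    refine (hf.continuousOn.mono (ball_sub_strip t0)).comp (by fun_prop) hm
  rw [intervalIntegral.integral_eq_sub_of_hasDerivAt h1 h2.intervalIntegrable]
  simp

/-- The derivative of the vertical integrals. -/
theorem hasDerivAt_vert {f : ℂ → ℂ} {η η' : ℝ → ℝ} {d : ℝ} (hf : DifferentiableOn ℂ f (strip d))
    (hη : ∀ t, HasDerivAt η (η' t) t) (hd : ∀ t, |η t| < d) (t : ℝ) :
    HasDerivAt (vert f η) (f (t + η t * I) * (1 + η' t * I) - f t) t := by
  have hd0 : 0 < d := lt_of_le_of_lt (abs_nonneg _) (hd t)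
  obtain ⟨F, hF⟩ := (hf.mono (ball_sub_strip t)).isExactOn_ball (c := (t : ℂ)) (r := d)
  have hc : ContinuousAt (fun s : ℝ => (s - t) ^ 2 + (η s) ^ 2) t := by
    have := (hη t).continuousAt
    fun_prop
  have h1 : ∀ᶠ s in 𝓝 t, (s - t) ^ 2 + (η s) ^ 2 < d ^ 2 := by
    apply hc.eventually_lt continuousAt_const
    have := hd t
    rw [sub_self]
    nlinarith [abs_nonneg (η t), sq_abs (η t)]
  have h2 : vert f η =ᶠ[𝓝 t] fun s => F (s + η s * I) - F s := by
    filter_upwards [h1] with s hs
    exact vert_eq hF hf hs hd0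
  have m1 : ((t : ℂ) + η t * I) ∈ Metric.ball (t : ℂ) d := by
    rw [Metric.mem_ball, dist_eq_norm, add_sub_cancel_left, norm_mul, norm_I, mul_one, norm_real]
    exact hd t
  have h3 : HasDerivAt (fun s : ℝ => (s : ℂ) + η s * I) (1 + η' t * I) t :=
    (hasDerivAt_id t).ofReal_comp.add ((hη t).ofReal_comp.mul_const I)
  have h4 := (hF _ m1).comp t h3
  have h5 := (hF _ (Metric.mem_ball_self hd0)).comp t (hasDerivAt_id t).ofReal_comp
  have h6 := h4.sub h5
  rw [h2.hasDerivAt_iff]
  rw [ofReal_one, mul_one] at h6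
  exact h6

theorem vert_zero {f : ℂ → ℂ} {η : ℝ → ℝ} {t : ℝ} (h : η t = 0) : vert f η t = 0 := by
  rw [vert, h, intervalIntegral.integral_same]

/-- **Shift of a line.** -/
theorem integral_shift' {f : ℂ → ℂ} {η η' : ℝ → ℝ} {d : ℝ} (hf : DifferentiableOn ℂ f (strip d))
    (hη : ∀ t, HasDerivAt η (η' t) t) (hd : ∀ t, |η t| < d) (hs : HasCompactSupport η)
    (h : Integrable fun t : ℝ => f (t + η t * I) * (1 + η' t * I) - f t) :
    ∫ t : ℝ, (f (t + η t * I) * (1 + η' t * I) - f t) = 0 := by
  have hder := hasDerivAt_vert hf hη hd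
  have hcont : Continuous (vert f η) := continuous_iff_continuousAt.2 fun t => (hder t).continuousAt
  have hcs : HasCompactSupport (vert f η) := by
    apply HasCompactSupport.of_support_subset_isCompact hs
    intro t ht
    apply subset_tsupport
    rw [Function.mem_support] at ht ⊢
    exact fun h => ht (vert_zero h)
  exact integral_eq_zero_of_hasDerivAt_of_integrable hder h (hcont.integrable_of_hasCompactSupport hcs)

/-- **Shift of a line.** -/
theorem integral_shift {f : ℂ → ℂ} {η η' : ℝ → ℝ} {d : ℝ} (hf : DifferentiableOn ℂ f (strip d))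
    (hη : ∀ t, HasDerivAt η (η' t) t) (hd : ∀ t, |η t| < d) (hs : HasCompactSupport η)
    (h1 : Integrable fun t : ℝ => f t) (h2 : Integrable fun t : ℝ => f (t + η t * I) * (1 + η' t * I)) :
    ∫ t : ℝ, f (t + η t * I) * (1 + η' t * I) = ∫ t : ℝ, f t := by
  have h3 := integral_shift' hf hη hd hs (h2.sub h1)
  rw [integral_sub h2 h1, sub_eq_zero] at h3
  exact h3

/-! ### Several variables -/

section pi

variable {ι : Type*} [Fintype ι] [DecidableEq ι]

theorem integral_line_zero_aux (i : ι) (p : ι → Prop) [DecidablePred p] (hpi : ∀ j, p j ↔ j = i)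
    {D : (ι → ℝ) → ℂ} (hD : Integrable D)
    (h : ∀ t : ι → ℝ, (Integrable fun x : ℝ => D (Function.update t i x)) →
      ∫ x : ℝ, D (Function.update t i x) = 0) : ∫ t, D t = 0 := by
  have hp := volume_preserving_piEquivPiSubtypeProd (fun _ : ι => ℝ) p
  set e := MeasurableEquiv.piEquivPiSubtypeProd (fun _ : ι => ℝ) p with he
  have h1 : ∫ z, D (e.symm z) = ∫ t, D t := hp.symm.integral_comp' (g := D)
  have h2 : Integrable (fun z => D (e.symm z)) := hp.symm.integrable_comp_of_integrable hD
  rw [← h1]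
  rw [Measure.volume_eq_prod] at h2 ⊢
  rw [integral_prod_symm _ h2]
  have h3 : ∀ y : ({j : ι // ¬p j} → ℝ), ∫ x, D (e.symm (x, y)) = 0 := by
    intro y
    have hU : Nonempty (Unique {j : ι // p j}) :=
      ⟨{ default := ⟨i, (hpi i).2 rfl⟩, uniq := fun j => Subtype.ext ((hpi j.1).1 j.2) }⟩
    obtain ⟨hU⟩ := hU
    have hq := volume_preserving_funUnique {j : ι // p j} ℝ
    have e1 : ∫ r : ℝ, D (e.symm ((MeasurableEquiv.funUnique {j : ι // p j} ℝ).symm r, y)) =
        ∫ x, D (e.symm (x, y)) := by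
      have e0 := hq.symm.integral_comp' (g := fun x => D (e.symm (x, y)))
      rw [e0]
      congr!
    rw [← e1]
    set t0 : ι → ℝ := e.symm (fun _ => 0, y) with ht0
    have e2 : ∀ r : ℝ, e.symm ((MeasurableEquiv.funUnique {j : ι // p j} ℝ).symm r, y) = Function.update t0 i r := by
      intro r
      funext j
      by_cases hj : j = i
      · subst hj
        have := (hpi j).2 rfl
        rw [Function.update_self]
        simp [he, MeasurableEquiv.piEquivPiSubtypeProd, MeasurableEquiv.funUnique, Equiv.piEquivPiSubtypeProd, this]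
      · have : ¬p j := fun h => hj ((hpi j).1 h)
        rw [Function.update_of_ne hj]
        simp [ht0, he, MeasurableEquiv.piEquivPiSubtypeProd, Equiv.piEquivPiSubtypeProd, this]
    simp only [e2]
    by_cases hi : Integrable fun x : ℝ => D (Function.update t0 i x)
    · exact h t0 hi
    · exact integral_undef hi
  simp only [h3]
  exact integral_zero _ _

/-- If the integral over every line in the direction `i` is zero then the integral is zero. -/
theorem integral_line_zero (i : ι) {D : (ι → ℝ) → ℂ} (hD : Integrable D)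
    (h : ∀ t : ι → ℝ, (Integrable fun x : ℝ => D (Function.update t i x)) →
      ∫ x : ℝ, D (Function.update t i x) = 0) : ∫ t, D t = 0 :=
  integral_line_zero_aux i (fun j => j = i) (fun _ => Iff.rfl) hD h

/-- the points of which the coordinates in `S` are shifted -/
noncomputable def pt (η : ι → ℝ → ℝ) (S : Finset ι) (t : ι → ℝ) : ι → ℂ :=
  fun i => t i + if i ∈ S then η i (t i) * I else 0

/-- the Jacobian -/
noncomputable def jac (η' : ι → ℝ → ℝ) (S : Finset ι) (t : ι → ℝ) : ℂ := ∏ i ∈ S, (1 + η' i (t i) * I)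

omit [Fintype ι] [DecidableEq ι] in
theorem jac_ne (η' : ι → ℝ → ℝ) (S : Finset ι) (t : ι → ℝ) : jac η' S t ≠ 0 := by
  apply Finset.prod_ne_zero_iff.2
  intro i _ h
  have := congrArg re h
  simp at this

/-- **Shift of the lines, several variables.** -/
theorem integral_shift_pi {Φ : (ι → ℂ) → ℂ} {η η' : ι → ℝ → ℝ} {d : ι → ℝ}
    (hη : ∀ i t, HasDerivAt (η i) (η' i t) t) (hd : ∀ i t, |η i t| < d i) (hs : ∀ i, HasCompactSupport (η i))
    (hΦ : ∀ (S : Finset ι) (i : ι), i ∉ S → ∀ t : ι → ℝ,
      DifferentiableOn ℂ (fun z => Φ (Function.update (pt η S t) i z)) (strip (d i)))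
    (hI : ∀ S : Finset ι, Integrable fun t => Φ (pt η S t) * jac η' S t) (S : Finset ι) :
    ∫ t, Φ (pt η S t) * jac η' S t = ∫ t : ι → ℝ, Φ (fun i => (t i : ℂ)) := by
  induction S using Finset.induction_on with
  | empty =>
    congr 1
    funext t
    rw [jac, Finset.prod_empty, mul_one]
    congr 1
    funext i
    simp [pt]
  | insert i S hi ih =>
    rw [← ih, ← sub_eq_zero, ← integral_sub (hI _) (hI _)]
    apply integral_line_zero i ((hI (insert i S)).sub (hI S))
    intro t ht
    set f : ℂ → ℂ := fun z => Φ (Function.update (pt η S t) i z) with hf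
    have e1 : ∀ x : ℝ, pt η S (Function.update t i x) = Function.update (pt η S t) i (x : ℂ) := by
      intro x
      funext j
      by_cases hj : j = i
      · subst hj
        simp [pt, hi]
      · simp [pt, hj]
    have e2 : ∀ x : ℝ, pt η (insert i S) (Function.update t i x) =
        Function.update (pt η S t) i (x + η i x * I) := by
      intro x
      funext j
      by_cases hj : j = i
      · subst hj
        simp [pt]
      · simp [pt, hj]
    have e3 : ∀ x : ℝ, jac η' S (Function.update t i x) = jac η' S t := by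
      intro x
      unfold jac
      refine Finset.prod_congr rfl fun j hj => ?_
      rw [Function.update_of_ne]
      rintro rfl
      exact hi hj
    have e4 : ∀ x : ℝ, jac η' (insert i S) (Function.update t i x) = (1 + η' i x * I) * jac η' S t := by
      intro x
      rw [jac, Finset.prod_insert hi, Function.update_self]
      congr 1
      exact e3 x
    have e5 : ∀ x : ℝ, Φ (pt η (insert i S) (Function.update t i x)) * jac η' (insert i S) (Function.update t i x) -
        Φ (pt η S (Function.update t i x)) * jac η' S (Function.update t i x) =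
        (f (x + η i x * I) * (1 + η' i x * I) - f x) * jac η' S t := by
      intro x
      rw [e1, e2, e3, e4]
      ring
    have ht' : Integrable fun x : ℝ => (f (x + η i x * I) * (1 + η' i x * I) - f x) * jac η' S t := by
      refine ht.congr (Filter.Eventually.of_forall fun x => ?_)
      exact e5 x
    have hg : ∫ x : ℝ, ((fun t => Φ (pt η (insert i S) t) * jac η' (insert i S) t - Φ (pt η S t) * jac η' S t)
        (Function.update t i x)) = ∫ x : ℝ, (f (x + η i x * I) * (1 + η' i x * I) - f x) * jac η' S t :=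
      integral_congr_ae (Filter.Eventually.of_forall fun x => e5 x)
    refine hg.trans ?_
    have h1 : Integrable fun x : ℝ => f (x + η i x * I) * (1 + η' i x * I) - f x := by
      have := ht'.mul_const (jac η' S t)⁻¹
      simpa only [mul_assoc, mul_inv_cancel₀ (jac_ne η' S t), mul_one] using this
    rw [integral_mul_const, integral_shift' (hΦ S i hi t) (hη i) (hd i) (hs i) h1, zero_mul]

end pi

/-! ### The gas -/

section gas

variable {ι : Type*} [Fintype ι] [LinearOrder ι]

/-- The weight of a gas with pair functions of the differences. -/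
noncomputable def gas (f : ι → ℂ → ℂ) (P : ι → ι → ℂ → ℂ) (z : ι → ℂ) : ℂ :=
  (∏ i, f i (z i)) * ∏ i, ∏ j ∈ Finset.univ.filter (fun j => i < j), P i j (z i - z j)

omit [Fintype ι] in
theorem pt_im_lt {η : ι → ℝ → ℝ} {d : ι → ℝ} (hd : ∀ i t, |η i t| < d i) (S : Finset ι) (t : ι → ℝ) (i : ι) :
    |(pt η S t i).im| < d i := by
  have h0 : 0 < d i := lt_of_le_of_lt (abs_nonneg _) (hd i 0)
  by_cases h : i ∈ S
  · simpa [pt, h] using hd i (t i)
  · simpa [pt, h] using h0

theorem sub_mem_strip {a b : ℝ} {z w : ℂ} (hz : |z.im| < a) (hw : |w.im| < b) : z - w ∈ strip (a + b) := by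
  show |(z - w).im| < a + b
  rw [sub_im]
  have := abs_sub z.im w.im
  linarith

theorem gas_diff {f : ι → ℂ → ℂ} {P : ι → ι → ℂ → ℂ} {η : ι → ℝ → ℝ} {d : ι → ℝ} (hd : ∀ i t, |η i t| < d i)
    (hf : ∀ i, DifferentiableOn ℂ (f i) (strip (d i)))
    (hP : ∀ i j, i < j → DifferentiableOn ℂ (P i j) (strip (d i + d j))) (S : Finset ι) (i : ι) (t : ι → ℝ) :
    DifferentiableOn ℂ (fun z => gas f P (Function.update (pt η S t) i z)) (strip (d i)) := by
  have hc : ∀ k : ι, DifferentiableOn ℂ (fun z : ℂ => Function.update (pt η S t) i z k) (strip (d i)) := by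
    intro k
    by_cases hk : k = i
    · subst hk
      simp only [Function.update_self]
      exact differentiableOn_id
    · simp only [Function.update_of_ne hk]
      exact differentiableOn_const _
  have hm : ∀ k : ι, ∀ z ∈ strip (d i), |(Function.update (pt η S t) i z k).im| < d k := by
    intro k z hz
    by_cases hk : k = i
    · subst hk
      rw [Function.update_self]
      exact hz
    · rw [Function.update_of_ne hk]
      exact pt_im_lt hd S t k
  unfold gas
  refine DifferentiableOn.mul (DifferentiableOn.fun_finsetProd fun k _ => ?_)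
    (DifferentiableOn.fun_finsetProd fun k _ => DifferentiableOn.fun_finsetProd fun j hj => ?_)
  · exact (hf k).comp (hc k) fun z hz => hm k z hz
  · have hkj : k < j := (Finset.mem_filter.1 hj).2
    exact (hP k j hkj).comp ((hc k).sub (hc j)) fun z hz => sub_mem_strip (hm k z hz) (hm j z hz)

theorem gas_cont {f : ι → ℂ → ℂ} {P : ι → ι → ℂ → ℂ} {η η' : ι → ℝ → ℝ} {d : ι → ℝ}
    (hη : ∀ i t, HasDerivAt (η i) (η' i t) t) (hη' : ∀ i, Continuous (η' i)) (hd : ∀ i t, |η i t| < d i)
    (hf : ∀ i, DifferentiableOn ℂ (f i) (strip (d i)))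
    (hP : ∀ i j, i < j → DifferentiableOn ℂ (P i j) (strip (d i + d j))) (S : Finset ι) :
    Continuous fun t : ι → ℝ => gas f P (pt η S t) * jac η' S t := by
  have hc : ∀ k : ι, Continuous fun t : ι → ℝ => pt η S t k := by
    intro k
    have h1 : Continuous (η k) := continuous_iff_continuousAt.2 fun t => (hη k t).continuousAt
    by_cases h : k ∈ S
    · simp only [pt, h, if_true]
      fun_prop
    · simp only [pt, h, if_false]
      fun_prop
  have hs : ∀ a : ℝ, IsOpen (strip a) := fun a => isOpen_lt (by fun_prop) continuous_const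
  unfold gas jac
  refine Continuous.mul (Continuous.mul (continuous_finsetProd _ fun k _ => ?_)
    (continuous_finsetProd _ fun k _ => continuous_finsetProd _ fun j hj => ?_))
    (continuous_finsetProd _ fun k _ => ?_)
  · exact (hf k).continuousOn.comp_continuous (hc k) fun t => pt_im_lt hd S t k
  · have hkj : k < j := (Finset.mem_filter.1 hj).2
    exact (hP k j hkj).continuousOn.comp_continuous ((hc k).sub (hc j)) fun t =>
      sub_mem_strip (pt_im_lt hd S t k) (pt_im_lt hd S t j)
  · have := hη' k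
    fun_prop

/-- **The lines of the gas may be shifted.** -/
theorem gas_shift {f : ι → ℂ → ℂ} {P : ι → ι → ℂ → ℂ} {η η' : ι → ℝ → ℝ} {d : ι → ℝ}
    (hη : ∀ i t, HasDerivAt (η i) (η' i t) t) (hη' : ∀ i, Continuous (η' i)) (hd : ∀ i t, |η i t| < d i)
    (hs : ∀ i, HasCompactSupport (η i)) (hf : ∀ i, DifferentiableOn ℂ (f i) (strip (d i)))
    (hP : ∀ i j, i < j → DifferentiableOn ℂ (P i j) (strip (d i + d j))) {M : (ι → ℝ) → ℝ} (hM : Integrable M)
    (hb : ∀ S t, ‖gas f P (pt η S t) * jac η' S t‖ ≤ M t) :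
    ∫ t : ι → ℝ, gas f P (fun i => (t i : ℂ)) = ∫ t, gas f P (pt η Finset.univ t) * jac η' Finset.univ t := by
  rw [integral_shift_pi hη hd hs (fun S i _ t => gas_diff hd hf hP S i t) (fun S => ?_) Finset.univ]
  exact hM.mono' (gas_cont hη hη' hd hf hP S).aestronglyMeasurable (Filter.Eventually.of_forall (hb S))

theorem pair_sum {κ : ι → ι → ℝ} (h : ∀ i j, κ i j = κ j i) :
    1 / 2 * ∑ i, ∑ j, κ i j = (∑ i, 1 / 2 * κ i i) +
      ∑ i, ∑ j ∈ Finset.univ.filter (fun j => i < j), κ i j := by
  have e1 : ∀ i : ι, ∑ j, κ i j = κ i i + (∑ j ∈ Finset.univ.filter (fun j => i < j), κ i j +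
      ∑ j ∈ Finset.univ.filter (fun j => j < i), κ i j) := by
    intro i
    have e2 : (Finset.univ : Finset ι) = insert i (Finset.univ.filter (fun j => i < j) ∪
        Finset.univ.filter (fun j => j < i)) := by
      ext j
      simp only [Finset.mem_univ, Finset.mem_insert, Finset.mem_union, Finset.mem_filter, true_and, true_iff]
      rcases lt_trichotomy i j with h | h | h
      · exact Or.inr (Or.inl h)
      · exact Or.inl h.symm
      · exact Or.inr (Or.inr h)
    conv_lhs => rw [e2]
    rw [Finset.sum_insert (by simp), Finset.sum_union]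
    rw [Finset.disjoint_filter]
    intro j _ h1 h2
    exact absurd h1 (not_lt.2 h2.le)
  have e3 : ∑ i, ∑ j ∈ Finset.univ.filter (fun j => j < i), κ i j =
      ∑ i, ∑ j ∈ Finset.univ.filter (fun j => i < j), κ i j := by
    simp only [Finset.sum_filter]
    rw [Finset.sum_comm]
    refine Finset.sum_congr rfl fun i _ => Finset.sum_congr rfl fun j _ => ?_
    split_ifs
    · exact h _ _
    · rfl
  simp_rw [e1]
  rw [Finset.sum_add_distrib, Finset.sum_add_distrib, e3, ← Finset.mul_sum]
  ring

/-- the modulus of one factor of the Jacobian -/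
theorem norm_jac1 (y : ℝ) : ‖(1 : ℂ) + y * I‖ ≤ Real.exp (1 / 2 * y ^ 2) := by
  have h : ‖(1 : ℂ) + y * I‖ ^ 2 ≤ Real.exp (1 / 2 * y ^ 2) ^ 2 := by
    have e : ‖(1 : ℂ) + y * I‖ ^ 2 = 1 + y ^ 2 := by
      rw [← normSq_eq_norm_sq]
      simp [normSq_apply]
      ring
    rw [e, ← Real.exp_nat_mul]
    have := Real.add_one_le_exp (y ^ 2)
    have e2 : ((2 : ℕ) : ℝ) * (1 / 2 * y ^ 2) = y ^ 2 := by push_cast; ring
    rw [e2]
    linarith
  exact (abs_le_of_sq_le_sq' h (Real.exp_pos _).le).2

/-- **The modulus of the shifted weight.** The Jacobian is compensated by the diagonal of the two-body term. -/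
theorem norm_gas_jac_le {f : ι → ℂ → ℂ} {P : ι → ι → ℂ → ℂ} {η η' : ι → ℝ → ℝ} {g : ι → ℝ → ℝ}
    {p κ : ι → ι → ℝ → ℝ → ℝ} (hg : ∀ i x, ‖f i (x + η i x * I)‖ ≤ g i x)
    (hp : ∀ i j, i < j → ∀ x y, ‖P i j ((x + η i x * I) - (y + η j y * I))‖ ≤ p i j x y * Real.exp (κ i j x y))
    (hs : ∀ i j x y, κ i j x y = κ j i y x) (hk : ∀ i x, η' i x ^ 2 ≤ κ i i x x) (t : ι → ℝ) :
    ‖gas f P (pt η Finset.univ t) * jac η' Finset.univ t‖ ≤ (∏ i, g i (t i)) *
      (∏ i, ∏ j ∈ Finset.univ.filter (fun j => i < j), p i j (t i) (t j)) *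
      Real.exp (1 / 2 * ∑ i, ∑ j, κ i j (t i) (t j)) := by
  have e0 : ∀ i, pt η Finset.univ t i = t i + η i (t i) * I := fun i => by simp [pt]
  have h1 : ∏ i, ‖f i (pt η Finset.univ t i)‖ ≤ ∏ i, g i (t i) :=
    Finset.prod_le_prod (fun _ _ => norm_nonneg _) fun i _ => by rw [e0]; exact hg i (t i)
  have h2 : ∏ i, ∏ j ∈ Finset.univ.filter (fun j => i < j),
      ‖P i j (pt η Finset.univ t i - pt η Finset.univ t j)‖ ≤
      ∏ i, ∏ j ∈ Finset.univ.filter (fun j => i < j), (p i j (t i) (t j) * Real.exp (κ i j (t i) (t j))) := by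
    refine Finset.prod_le_prod (fun _ _ => Finset.prod_nonneg fun _ _ => norm_nonneg _) fun i _ =>
      Finset.prod_le_prod (fun _ _ => norm_nonneg _) fun j hj => ?_
    rw [e0, e0]
    exact hp i j (Finset.mem_filter.1 hj).2 (t i) (t j)
  have h3 : ∏ i, ‖(1 : ℂ) + η' i (t i) * I‖ ≤ ∏ i, Real.exp (1 / 2 * κ i i (t i) (t i)) := by
    refine Finset.prod_le_prod (fun _ _ => norm_nonneg _) fun i _ => (norm_jac1 _).trans ?_
    apply Real.exp_le_exp.2
    have := hk i (t i)
    linarith
  have h4 : ∏ i, ∏ j ∈ Finset.univ.filter (fun j => i < j), (p i j (t i) (t j) * Real.exp (κ i j (t i) (t j))) =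
      (∏ i, ∏ j ∈ Finset.univ.filter (fun j => i < j), p i j (t i) (t j)) *
        Real.exp (∑ i, ∑ j ∈ Finset.univ.filter (fun j => i < j), κ i j (t i) (t j)) := by
    rw [Real.exp_sum, ← Finset.prod_mul_distrib]
    refine Finset.prod_congr rfl fun i _ => ?_
    rw [Real.exp_sum, ← Finset.prod_mul_distrib]
  rw [pair_sum (κ := fun i j => κ i j (t i) (t j)) (fun i j => hs i j _ _), Real.exp_add, Real.exp_sum]
  rw [gas, jac, norm_mul, norm_mul, norm_prod, norm_prod, norm_prod]
  simp only [norm_prod]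
  have h0 : 0 ≤ ∏ i, g i (t i) := (Finset.prod_nonneg fun _ _ => norm_nonneg _).trans h1
  calc (∏ i, ‖f i (pt η Finset.univ t i)‖) * (∏ i, ∏ j ∈ Finset.univ.filter (fun j => i < j),
        ‖P i j (pt η Finset.univ t i - pt η Finset.univ t j)‖) * ∏ i, ‖(1 : ℂ) + η' i (t i) * I‖
      ≤ (∏ i, g i (t i)) * (∏ i, ∏ j ∈ Finset.univ.filter (fun j => i < j),
          (p i j (t i) (t j) * Real.exp (κ i j (t i) (t j)))) * ∏ i, Real.exp (1 / 2 * κ i i (t i) (t i)) :=
        mul_le_mul (mul_le_mul h1 h2 (Finset.prod_nonneg fun _ _ => Finset.prod_nonneg fun _ _ => norm_nonneg _) h0)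
          h3 (Finset.prod_nonneg fun _ _ => norm_nonneg _)
          (mul_nonneg h0 ((Finset.prod_nonneg fun _ _ => Finset.prod_nonneg fun _ _ => norm_nonneg _).trans h2))
    _ = _ := by
        rw [h4]
        ring

end gas

end NUSh
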